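import Pool.Agent.MP_332c83_pr.Strong

/-!
In `G(n,p)`, `p` fixed, with probability `1 - O(1/√n)` the deletion of each edge of a positive
fraction of the edges raises the spectral gap of the normalized Laplacian by at least `c / n ^ 2`.
-/

set_option autoImplicit false

open scoped Classical

namespace Pool.Agent.Results.MP_332c83_pr.GapRises

/-- The degree of a vertex. -/
noncomputable def deg {n : ℕ} (G : SimpleGraph (Fin n)) (i : Fin n) : ℕ :=
  (Finset.univ.filter fun k => G.Adj i k).card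

/-- The symmetric normalized Laplacian `I - D^{-1/2} A D^{-1/2}`. -/
noncomputable def nlap {n : ℕ} (G : SimpleGraph (Fin n)) : Matrix (Fin n) (Fin n) ℝ :=
  Matrix.of fun i j => (if i = j then (1 : ℝ) else 0) -
    (if G.Adj i j then (1 : ℝ) else 0) / Real.sqrt ((deg G i : ℝ) * (deg G j : ℝ))

/-- The spectral gap: the second smallest eigenvalue `λ₂` of the normalized Laplacian (the least
`t` such that at least two roots of the characteristic polynomial, with multiplicity, are at most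
`t`). -/
noncomputable def gap {n : ℕ} (G : SimpleGraph (Fin n)) : ℝ :=
  sInf {t : ℝ | 2 ≤ ((nlap G).charpoly.roots.filter fun x => x ≤ t).card}

/-- The edges whose deletion raises the gap by at least `η`. -/
noncomputable def raising {n : ℕ} (η : ℝ) (G : SimpleGraph (Fin n)) : Finset (Sym2 (Fin n)) :=
  G.edgeFinset.filter fun e => gap G + η ≤ gap (G.deleteEdges {e})

/-- The probability in `G(n,p)` of a set of graphs on `n` vertices. -/
noncomputable def prob (n : ℕ) (p : ℝ) (E : Set (SimpleGraph (Fin n))) : ℝ :=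
  ∑ G : SimpleGraph (Fin n),
    if G ∈ E then p ^ G.edgeFinset.card * (1 - p) ^ (n.choose 2 - G.edgeFinset.card) else 0

theorem deg_eq {n : ℕ} (G : SimpleGraph (Fin n)) (i : Fin n) :
    (deg G i : ℝ) = Pool.Agent.MP_332c83_pr.dg G i := by
  unfold deg Pool.Agent.MP_332c83_pr.dg Pool.Agent.MP_332c83_pr.adj
  rw [Finset.card_filter]
  push_cast
  rfl

theorem nlap_eq {n : ℕ} (G : SimpleGraph (Fin n)) : nlap G = Pool.Agent.MP_332c83_pr.lap G := by
  unfold nlap Pool.Agent.MP_332c83_pr.lap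
  ext i j
  simp only [Matrix.of_apply, deg_eq]
  rfl

theorem gap_eq {n : ℕ} (G : SimpleGraph (Fin n)) :
    gap G = 1 - Pool.Agent.MP_332c83_pr.TT G := by
  have h : gap G = Pool.Agent.MP_332c83_pr.secondEig (Pool.Agent.MP_332c83_pr.lap G) := by
    unfold gap Pool.Agent.MP_332c83_pr.secondEig
    rw [nlap_eq]
  rw [h]
  unfold Pool.Agent.MP_332c83_pr.TT
  ring

/-- **The gap rises.** For every `p ∈ (0,1)` there are `c > 0` and `C` such that for every `n ≥ 1`,
with probability at least `1 - C/√n`, the random graph `G(n,p)` has minimum degree at least `2`,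
and for at least the fraction `c` of its edges the deletion of the edge raises the gap by at least
`c / n ^ 2`. -/
theorem result (p : ℝ) (hp : 0 < p) (hp1 : p < 1) : ∃ c : ℝ, 0 < c ∧ ∃ C : ℝ, ∀ n : ℕ, 1 ≤ n →
    1 - C / Real.sqrt n ≤ prob n p
      {G | (∀ i, 2 ≤ deg G i) ∧
        c * (G.edgeFinset.card : ℝ) ≤ ((raising (c / (n : ℝ) ^ 2) G).card : ℝ)} := by
  obtain ⟨c, hc, C, _, h⟩ := Pool.Agent.MP_332c83_pr.up_rate hp hp1
  refine ⟨c, hc, C, fun n hn => ?_⟩
  have h1 := h n hn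
  set f : Finset (Sym2 (Fin n)) → ℝ := fun s =>
    if (∀ i, 2 ≤ Pool.Agent.MP_332c83_pr.dg (Pool.Agent.MP_332c83_pr.gr s) i) ∧
      c * (s.card : ℝ) ≤ ((Pool.Agent.MP_332c83_pr.upset (c / (n : ℝ) ^ 2) s).card : ℝ)
      then 1 else 0 with hf
  have h2 : prob n p {G | (∀ i, 2 ≤ deg G i) ∧
      c * (G.edgeFinset.card : ℝ) ≤ ((raising (c / (n : ℝ) ^ 2) G).card : ℝ)} =
      Pool.Agent.MP_332c83_pr.ex p f := by
    unfold prob
    refine Pool.Agent.MP_332c83_pr.sum_graphs _ _ (fun s hs => ?_)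
    rw [Finset.mem_powerset] at hs
    have e1 := Pool.Agent.MP_332c83_pr.edgeFinset_gr hs
    have e2 : raising (c / (n : ℝ) ^ 2) (Pool.Agent.MP_332c83_pr.gr s) =
        Pool.Agent.MP_332c83_pr.upset (c / (n : ℝ) ^ 2) s := by
      unfold raising Pool.Agent.MP_332c83_pr.upset
      rw [e1]
      refine Finset.filter_congr (fun e _ => ?_)
      rw [Pool.Agent.MP_332c83_pr.gr_deleteEdges, gap_eq, gap_eq]
      constructor <;> intro h <;> linarith
    have e3 : (∀ i, 2 ≤ deg (Pool.Agent.MP_332c83_pr.gr s) i) ↔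
        ∀ i, 2 ≤ Pool.Agent.MP_332c83_pr.dg (Pool.Agent.MP_332c83_pr.gr s) i := by
      refine forall_congr' (fun i => ?_)
      rw [← deg_eq]
      norm_cast
    have e4 : (Pool.Agent.MP_332c83_pr.gr s ∈ {G : SimpleGraph (Fin n) | (∀ i, 2 ≤ deg G i) ∧
        c * (G.edgeFinset.card : ℝ) ≤ ((raising (c / (n : ℝ) ^ 2) G).card : ℝ)}) ↔
        ((∀ i, 2 ≤ Pool.Agent.MP_332c83_pr.dg (Pool.Agent.MP_332c83_pr.gr s) i) ∧
        c * (s.card : ℝ) ≤
          ((Pool.Agent.MP_332c83_pr.upset (c / (n : ℝ) ^ 2) s).card : ℝ)) := by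
      rw [Set.mem_ofPred_eq, e2, e3, e1]
    rw [hf]
    simp only [e4, e1]
    rw [← Pool.Agent.MP_332c83_pr.card_EE]
    unfold Pool.Agent.MP_332c83_pr.wt
    split_ifs
    · rw [mul_one]
    · rw [mul_zero]
  rw [h2]
  have h3 : (1 : ℝ) ≤ Pool.Agent.MP_332c83_pr.ex p f + C / Real.sqrt n := by
    refine le_trans ?_ (add_le_add_right h1 _)
    rw [← Pool.Agent.MP_332c83_pr.ex_add]
    refine le_trans (Pool.Agent.MP_332c83_pr.ex_one (n := n) (p := p)).ge ?_
    refine Pool.Agent.MP_332c83_pr.ex_mono hp.le hp1.le (fun s hs => ?_)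
    rw [Finset.mem_powerset] at hs
    by_cases hg : (∀ i, 2 ≤ Pool.Agent.MP_332c83_pr.dg (Pool.Agent.MP_332c83_pr.gr s) i) ∧
        c * (n : ℝ) ^ 2 < ∑ u, ∑ v, Pool.Agent.MP_332c83_pr.nu (c / (n : ℝ) ^ 2) s u v
    · have h4 := Pool.Agent.MP_332c83_pr.card_upset_ge hs hc hg.2
      rw [hf]
      simp only [if_pos hg, if_pos (And.intro hg.1 h4)]
      norm_num
    · rw [if_neg hg, hf]
      dsimp only
      split_ifs <;> norm_num
  linarith

end Pool.Agent.Results.MP_332c83_pr.GapRises
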